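import Pool.Agent.Helper82.SG.St

/-!
# Project SG (MP_e46579_co), module LOB: the Steiner ratio is at most the ratio of the lattice box
-/

set_option autoImplicit false

namespace Pool.Agent.Helper69.SG

open Finset Real MeasureTheory Pool.Agent.Helper77.Steiner Pool.Agent.Helper82.SG
open Pool.Agent.Helper18.GP (nlen NConn)
open scoped ENNReal

theorem hLOB (hHAU : StHAU) (hLNT : StLNT) : StLOB := by
  intro d M
  unfold gridRatio
  refine le_iInf fun A => le_iInf fun B => le_iInf fun hA => le_iInf fun hAB => le_iInf fun _ => ?_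
  have hAne : A.Nonempty := Finset.card_pos.1 (by omega)
  have hBne : B.Nonempty := hAne.mono hAB
  obtain ⟨l, hl, hnet⟩ := hLNT.1 B hBne
  have h1 : steinerLen A ≤ ENNReal.ofReal (mstLen B) :=
    (hHAU A B l hnet hAB).trans (ENNReal.ofReal_le_ofReal hl)
  have h2 : steinerRatio d ≤ steinerLen A / ENNReal.ofReal (mstLen A) := by
    unfold steinerRatio steinerRatioOf
    exact iInf_le_of_le A (iInf_le_of_le hA le_rfl)
  exact h2.trans (ENNReal.div_le_div_right h1 _)

end Pool.Agent.Helper69.SG
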